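import Mathlib

set_option autoImplicit false

open Filter Topology Set

namespace Pool.Agent.H108R4.PG

/-- a cluster point lies between the lower and the upper limit -/
theorem cluster_subset {ι : Type*} {l : Filter ι} {u : ι → EReal} {y : EReal}
    (h : MapClusterPt y l u) : liminf u l ≤ y ∧ y ≤ limsup u l := by
  constructor
  · by_contra hc
    rw [not_le] at hc
    obtain ⟨c, hc1, hc2⟩ := exists_between hc
    have h1 := eventually_lt_of_lt_liminf hc2
    have h2 := h.frequently (Iio_mem_nhds hc1)
    obtain ⟨j, hj1, hj2⟩ := (h2.and_eventually h1).exists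
    exact absurd (lt_trans hj1 hj2) (lt_irrefl _)
  · by_contra hc
    rw [not_le] at hc
    obtain ⟨c, hc1, hc2⟩ := exists_between hc
    have h1 := eventually_lt_of_limsup_lt hc1
    have h2 := h.frequently (Ioi_mem_nhds hc2)
    obtain ⟨j, hj1, hj2⟩ := (h2.and_eventually h1).exists
    exact absurd (lt_trans hj1 hj2) (lt_irrefl _)

/-- a sequence which decreases slowly has an interval of cluster points -/
theorem cluster_seq {u : ℕ → EReal}
    (hs : ∀ v' v : EReal, ⊥ < v' → v' < v → v < ⊤ → ∀ᶠ j in atTop, v ≤ u j → v' ≤ u (j + 1)) :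
    {y | MapClusterPt y atTop u} = Icc (liminf u atTop) (limsup u atTop) := by
  apply Subset.antisymm
  · intro y hy
    exact cluster_subset hy
  · have hio : Ioo (liminf u atTop) (limsup u atTop) ⊆ {y | MapClusterPt y atTop u} := by
      rintro v ⟨h1, h2⟩
      show MapClusterPt v atTop u
      rw [mapClusterPt_iff_frequently]
      intro U hU
      have hb : ⊥ < v := lt_of_le_of_lt bot_le h1
      have ht : v < ⊤ := lt_of_lt_of_le h2 le_top
      obtain ⟨l, r, hlr, hsub⟩ := (mem_nhds_iff_exists_Ioo_subset' ⟨_, hb⟩ ⟨_, ht⟩).1 hU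
      obtain ⟨v', hv1, hv2⟩ := exists_between hlr.1
      have hs' := hs v' v (lt_of_le_of_lt bot_le hv1) hv2 ht
      rw [frequently_atTop]
      intro N
      obtain ⟨N', hN'⟩ := eventually_atTop.1 hs'
      have f1 := frequently_atTop.1 (frequently_lt_of_lt_limsup (by isBoundedDefault) h2) (max N N')
      obtain ⟨j1, hj1, hj1'⟩ := f1
      obtain ⟨j2, hj2, hj2'⟩ := frequently_atTop.1
        (frequently_lt_of_liminf_lt (by isBoundedDefault) h1) j1
      -- crossing
      have hcross : ∀ m : ℕ, (∀ i ≤ m, v ≤ u (j1 + i)) ∨ ∃ i < m, v ≤ u (j1 + i) ∧ u (j1 + i + 1) < v := by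
        intro m
        induction m with
        | zero =>
          left
          intro i hi
          obtain rfl : i = 0 := by omega
          exact hj1'.le
        | succ m ih =>
          rcases ih with ih | ⟨i, hi, h⟩
          · by_cases hc : u (j1 + (m + 1)) < v
            · right
              exact ⟨m, by omega, ih m le_rfl, hc⟩
            · left
              intro i hi
              rcases Nat.lt_or_ge i (m + 1) with h | h
              · exact ih i (by omega)
              · obtain rfl : i = m + 1 := by omega
                exact not_lt.1 hc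
          · right
            exact ⟨i, by omega, h⟩
      rcases hcross (j2 - j1) with h | ⟨i, hi, hi1, hi2⟩
      · have := h (j2 - j1) le_rfl
        rw [show j1 + (j2 - j1) = j2 by omega] at this
        exact absurd hj2' (not_lt.2 this)
      · refine ⟨j1 + i + 1, ?_, ?_⟩
        · have := le_max_left N N'
          omega
        · apply hsub
          have h3 := hN' (j1 + i) (by have := le_max_right N N'; omega) hi1
          exact ⟨lt_of_lt_of_le hv1 h3, lt_trans hi2 hlr.2⟩
    have hcl : IsClosed {y | MapClusterPt y atTop u} := isClosed_setOfPred_clusterPt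
    rcases lt_or_ge (liminf u atTop) (limsup u atTop) with h | h
    · rw [← closure_Ioo h.ne]
      exact closure_minimal hio hcl
    · have he : liminf u atTop = limsup u atTop := le_antisymm (liminf_le_limsup (by isBoundedDefault) (by isBoundedDefault)) h
      intro y hy
      have hy' : y = limsup u atTop := le_antisymm hy.2 (he ▸ hy.1)
      have : Tendsto u atTop (𝓝 y) :=
        tendsto_of_liminf_eq_limsup (by rw [hy', he]) (by rw [hy'])
      exact this.mapClusterPt

/-- the lower and upper limit of a function of a real variable along a sequence -/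
theorem lims_seq {a : ℝ → EReal} {x : ℕ → ℝ} (hx : Monotone x) (hx' : Tendsto x atTop atTop)
    (hs : ∀ v' v : EReal, ⊥ < v' → v' < v → v < ⊤ → ∀ᶠ j in atTop, ∀ y, x j ≤ y → y ≤ x (j + 1) →
      (v ≤ a (x j) → v' ≤ a y) ∧ (v ≤ a y → v' ≤ a (x (j + 1)))) :
    liminf (fun j => a (x j)) atTop = liminf a atTop ∧
      limsup (fun j => a (x j)) atTop = limsup a atTop := by
  have hloc : ∀ N : ℕ, ∀ y, x N ≤ y → ∃ j, N ≤ j ∧ x j ≤ y ∧ y ≤ x (j + 1) := by
    intro N y hy
    have hex : ∃ m, y < x m := by
      obtain ⟨m, hm⟩ := (hx'.eventually_gt_atTop y).exists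
      exact ⟨m, hm⟩
    classical
    let m := Nat.find hex
    have hm : y < x m := Nat.find_spec hex
    have hmN : N < m := by
      by_contra h
      exact absurd (lt_of_lt_of_le hm (hx (not_lt.1 h))) (not_lt.2 hy)
    refine ⟨m - 1, by omega, ?_, ?_⟩
    · exact not_lt.1 (Nat.find_min hex (show m - 1 < m by omega))
    · rw [show m - 1 + 1 = m by omega]
      exact hm.le
  constructor
  · apply le_antisymm
    · by_contra hc
      rw [not_le] at hc
      obtain ⟨v, hv1, hv2⟩ := exists_between hc
      obtain ⟨v', hv'1, hv'2⟩ := exists_between hv1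
      have h1 := eventually_lt_of_lt_liminf hv2
      have h2 := hs v' v (lt_of_le_of_lt bot_le hv'1) hv'2 (lt_of_lt_of_le hv2 le_top)
      obtain ⟨N, hN⟩ := eventually_atTop.1 (h1.and h2)
      have h3 : ∀ᶠ y in atTop, v' ≤ a y := by
        filter_upwards [eventually_ge_atTop (x N)] with y hy
        obtain ⟨j, hj, hj1, hj2⟩ := hloc N y hy
        exact ((hN j hj).2 y hj1 hj2).1 (hN j hj).1.le
      have h4 : v' ≤ liminf a atTop := le_liminf_of_le (by isBoundedDefault) h3
      exact absurd hv'1 (not_lt.2 h4)
    · exact liminf_le_liminf_of_le (f := atTop) (g := map x atTop) (u := a) hx'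
  · apply le_antisymm
    · exact limsup_le_limsup_of_le (f := map x atTop) (g := atTop) (u := a) hx'
    · by_contra hc
      rw [not_le] at hc
      obtain ⟨v, hv1, hv2⟩ := exists_between hc
      obtain ⟨v', hv'1, hv'2⟩ := exists_between hv1
      have h2 := hs v' v (lt_of_le_of_lt bot_le hv'1) hv'2 (lt_of_lt_of_le hv2 le_top)
      obtain ⟨N, hN⟩ := eventually_atTop.1 h2
      have h3 : ∃ᶠ j in atTop, v' ≤ a (x j) := by
        rw [frequently_atTop]
        intro M
        obtain ⟨y, hy, hy'⟩ := frequently_atTop.1
          (frequently_lt_of_lt_limsup (by isBoundedDefault) hv2) (x (max M N))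
        obtain ⟨j, hj, hj1, hj2⟩ := hloc (max M N) y hy
        refine ⟨j + 1, ?_, ?_⟩
        · have := le_max_left M N
          omega
        · exact ((hN j ((le_max_right M N).trans hj)) y hj1 hj2).2 hy'.le
      have h4 : v' ≤ limsup (fun j => a (x j)) atTop := le_limsup_of_frequently_le h3
      exact absurd hv'1 (not_lt.2 h4)

end Pool.Agent.H108R4.PG
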