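import Mathlib
import Pool.Agent.H108R4.PG.Slow

set_option autoImplicit false

open Filter Topology Set

namespace Pool.Agent.H108R4.PG

/-- slow decrease of a quotient -/
theorem slow_of {F S : ℝ → ℝ} {x : ℕ → ℝ} {δ : ℕ → ℝ} (hδ : Tendsto δ atTop (𝓝 0))
    (hS : ∀ᶠ j in atTop, 0 < S (x j) ∧ ∀ y, x j ≤ y → y ≤ x (j + 1) →
      S (x j) ≤ S y ∧ S y ≤ S (x (j + 1)) ∧ F (x j) - δ j * S (x j) ≤ F y ∧
        F y - δ j * S (x j) ≤ F (x (j + 1)))
    (hq : Tendsto (fun j => S (x (j + 1)) / S (x j)) atTop (𝓝 1)) :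
    ∀ v' v : EReal, ⊥ < v' → v' < v → v < ⊤ → ∀ᶠ j in atTop, ∀ y, x j ≤ y → y ≤ x (j + 1) →
      (v ≤ ((F (x j) / S (x j) : ℝ) : EReal) → v' ≤ ((F y / S y : ℝ) : EReal)) ∧
      (v ≤ ((F y / S y : ℝ) : EReal) → v' ≤ ((F (x (j + 1)) / S (x (j + 1)) : ℝ) : EReal)) := by
  intro v' v h1 h2 h3
  lift v to ℝ using ⟨h3.ne, (h1.trans h2).ne'⟩
  lift v' to ℝ using ⟨(h2.trans h3).ne, h1.ne'⟩
  rw [EReal.coe_lt_coe_iff] at h2
  have hlim : Tendsto (fun j => |v'| * (S (x (j + 1)) / S (x j) - 1) + δ j) atTop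
      (𝓝 (|v'| * (1 - 1) + 0)) := ((hq.sub_const 1).const_mul _).add hδ
  have hev : ∀ᶠ j in atTop, |v'| * (S (x (j + 1)) / S (x j) - 1) + δ j < v - v' :=
    hlim.eventually_lt_const (by linarith)
  filter_upwards [hev, hS] with j hj hSj y hy1 hy2
  obtain ⟨hpos, hSy⟩ := hSj
  obtain ⟨g1, g2, g3, g4⟩ := hSy y hy1 hy2
  have hSj0 : S (x (j + 1)) - S (x j) = (S (x (j + 1)) / S (x j) - 1) * S (x j) := by
    field_simp
  have hkey : |v'| * (S (x (j + 1)) - S (x j)) + δ j * S (x j) ≤ (v - v') * S (x j) := by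
    rw [hSj0]
    nlinarith [hj, hpos]
  have hy0 : 0 < S y := lt_of_lt_of_le hpos g1
  have hj0 : 0 < S (x (j + 1)) := lt_of_lt_of_le hy0 g2
  have habs : 0 ≤ |v'| := abs_nonneg _
  have hle : v' ≤ |v'| := le_abs_self _
  have hle' : -|v'| ≤ v' := neg_abs_le _
  constructor
  · intro h
    rw [EReal.coe_le_coe_iff, le_div_iff₀ hpos] at h
    rw [EReal.coe_le_coe_iff, le_div_iff₀ hy0]
    have e1 : v' * (S y - S (x j)) ≤ |v'| * (S (x (j + 1)) - S (x j)) := by
      calc v' * (S y - S (x j)) ≤ |v'| * (S y - S (x j)) :=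
            mul_le_mul_of_nonneg_right hle (by linarith)
        _ ≤ _ := mul_le_mul_of_nonneg_left (by linarith) habs
    linarith
  · intro h
    rw [EReal.coe_le_coe_iff, le_div_iff₀ hy0] at h
    rw [EReal.coe_le_coe_iff, le_div_iff₀ hj0]
    have e1 : v' * (S (x (j + 1)) - S y) ≤ |v'| * (S (x (j + 1)) - S (x j)) := by
      calc v' * (S (x (j + 1)) - S y) ≤ |v'| * (S (x (j + 1)) - S y) :=
            mul_le_mul_of_nonneg_right hle (by linarith)
        _ ≤ _ := mul_le_mul_of_nonneg_left (by linarith) habs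
    have e2 : (v - v') * S (x j) ≤ (v - v') * S y :=
      mul_le_mul_of_nonneg_left g1 (by linarith)
    linarith

/-- the cluster points of a slowly decreasing quotient along a sequence form the interval from the
lower to the upper limit of the quotient -/
theorem interval {F S : ℝ → ℝ} {x : ℕ → ℝ} {δ : ℕ → ℝ} (hδ : Tendsto δ atTop (𝓝 0))
    (hS : ∀ᶠ j in atTop, 0 < S (x j) ∧ ∀ y, x j ≤ y → y ≤ x (j + 1) →
      S (x j) ≤ S y ∧ S y ≤ S (x (j + 1)) ∧ F (x j) - δ j * S (x j) ≤ F y ∧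
        F y - δ j * S (x j) ≤ F (x (j + 1)))
    (hx : Monotone x) (hx' : Tendsto x atTop atTop)
    (hq : Tendsto (fun j => S (x (j + 1)) / S (x j)) atTop (𝓝 1)) :
    {y : EReal | MapClusterPt y atTop (fun j => ((F (x j) / S (x j) : ℝ) : EReal))} =
      Icc (liminf (fun t => ((F t / S t : ℝ) : EReal)) atTop)
        (limsup (fun t => ((F t / S t : ℝ) : EReal)) atTop) ∧
    (∀ L : EReal, Tendsto (fun j => ((F (x j) / S (x j) : ℝ) : EReal)) atTop (𝓝 L) →
      Tendsto (fun t => ((F t / S t : ℝ) : EReal)) atTop (𝓝 L)) := by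
  have hs := slow_of hδ hS hq
  obtain ⟨h1, h2⟩ := lims_seq (a := fun t => ((F t / S t : ℝ) : EReal)) hx hx' hs
  constructor
  · rw [← h1, ← h2]
    apply cluster_seq
    intro v' v g1 g2 g3
    filter_upwards [hs v' v g1 g2 g3] with j hj
    exact (hj (x (j + 1)) (hx (Nat.le_succ j)) le_rfl).1
  · intro L hL
    have e1 := hL.liminf_eq
    have e2 := hL.limsup_eq
    exact tendsto_of_liminf_eq_limsup (by rw [← h1]; exact e1) (by rw [← h2]; exact e2)

/-- the same for the continuous variable, if there is one suitable sequence -/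
theorem interval_cont {F S : ℝ → ℝ} {x : ℕ → ℝ} {δ : ℕ → ℝ} (hδ : Tendsto δ atTop (𝓝 0))
    (hS : ∀ᶠ j in atTop, 0 < S (x j) ∧ ∀ y, x j ≤ y → y ≤ x (j + 1) →
      S (x j) ≤ S y ∧ S y ≤ S (x (j + 1)) ∧ F (x j) - δ j * S (x j) ≤ F y ∧
        F y - δ j * S (x j) ≤ F (x (j + 1)))
    (hx : Monotone x) (hx' : Tendsto x atTop atTop)
    (hq : Tendsto (fun j => S (x (j + 1)) / S (x j)) atTop (𝓝 1)) :
    {y : EReal | MapClusterPt y atTop (fun t => ((F t / S t : ℝ) : EReal))} =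
      Icc (liminf (fun t => ((F t / S t : ℝ) : EReal)) atTop)
        (limsup (fun t => ((F t / S t : ℝ) : EReal)) atTop) := by
  apply Subset.antisymm
  · intro y hy
    exact cluster_subset hy
  · rw [← (interval hδ hS hx hx' hq).1]
    intro y hy
    exact MapClusterPt.of_comp hx' hy

end Pool.Agent.H108R4.PG
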