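import Mathlib
import Pool.Agent.H108R4.PG.Ratio

set_option autoImplicit false

open Filter Topology Set

namespace Pool.Agent.H108R4.PG.Cr

/-- the gaps between consecutive primes up to `X` -/
def gaps (X : ℝ) : Set ℕ :=
  {g : ℕ | ∃ n : ℕ, (Nat.nth Nat.Prime (n + 1) : ℝ) ≤ X ∧
    g = Nat.nth Nat.Prime (n + 1) - Nat.nth Nat.Prime n}

theorem gaps_finite (X : ℝ) : (gaps X).Finite := by
  have : gaps X ⊆ (fun n : ℕ => Nat.nth Nat.Prime (n + 1) - Nat.nth Nat.Prime n) ''
      {n : ℕ | n ≤ ⌊X⌋₊} := by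
    rintro g ⟨n, hn, rfl⟩
    refine ⟨n, ?_, rfl⟩
    have h1 : n + 1 ≤ Nat.nth Nat.Prime (n + 1) :=
      (Nat.nth_strictMono Nat.infinite_setOfPred_prime).le_apply
    exact Nat.le_floor (le_trans (by exact_mod_cast (Nat.le_succ n).trans h1) hn)
  exact ((Set.finite_le_nat _).image _).subset this

/-- the largest gap between consecutive primes up to `X` -/
noncomputable def G (X : ℝ) : ℕ := sSup (gaps X)

theorem le_G {X : ℝ} {n : ℕ} (h : (Nat.nth Nat.Prime (n + 1) : ℝ) ≤ X) :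
    Nat.nth Nat.Prime (n + 1) - Nat.nth Nat.Prime n ≤ G X :=
  le_csSup (gaps_finite X).bddAbove ⟨n, h, rfl⟩

theorem G_mono : Monotone G := by
  intro x y hxy
  rcases (gaps x).eq_empty_or_nonempty with h | h
  · have : G x = 0 := by unfold G; rw [h]; exact csSup_empty
    rw [this]
    exact Nat.zero_le _
  · apply csSup_le_csSup (gaps_finite y).bddAbove h
    rintro g ⟨n, hn, rfl⟩
    exact ⟨n, hn.trans hxy, rfl⟩

theorem gaps_ne {X : ℝ} (hX : 3 ≤ X) : (gaps X).Nonempty := by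
  refine ⟨_, 0, ?_, rfl⟩
  have : Nat.nth Nat.Prime (0 + 1) = 3 := Nat.nth_prime_one_eq_three
  rw [this]
  exact_mod_cast hX

theorem isGreatest {X : ℝ} (hX : 3 ≤ X) : IsGreatest (gaps X) (G X) :=
  ⟨Nat.sSup_mem (gaps_ne hX) (gaps_finite X).bddAbove,
    fun _ hg => le_csSup (gaps_finite X).bddAbove hg⟩

/-- the Cramér quotient -/
noncomputable def F (X : ℝ) : EReal := (((G X : ℝ) / Real.log X ^ 2 : ℝ) : EReal)

theorem cond {x : ℕ → ℝ} (hx' : Tendsto x atTop atTop) :
    ∀ᶠ j in atTop, 0 < Real.log (x j) ^ 2 ∧ ∀ y, x j ≤ y → y ≤ x (j + 1) →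
      Real.log (x j) ^ 2 ≤ Real.log y ^ 2 ∧ Real.log y ^ 2 ≤ Real.log (x (j + 1)) ^ 2 ∧
      (G (x j) : ℝ) - 0 * Real.log (x j) ^ 2 ≤ (G y : ℝ) ∧
      (G y : ℝ) - 0 * Real.log (x j) ^ 2 ≤ (G (x (j + 1)) : ℝ) := by
  filter_upwards [hx'.eventually_ge_atTop (Real.exp 1)] with j hj
  have h0 : 0 < x j := (Real.exp_pos 1).trans_le hj
  have h1 : 1 ≤ Real.log (x j) := (Real.le_log_iff_exp_le h0).2 hj
  refine ⟨by positivity, fun y hy1 hy2 => ?_⟩
  have hy0 : 0 < y := lt_of_lt_of_le h0 hy1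
  have hl1 : Real.log (x j) ≤ Real.log y := Real.log_le_log h0 hy1
  have hl2 : Real.log y ≤ Real.log (x (j + 1)) := Real.log_le_log hy0 hy2
  have hg1 : (G (x j) : ℝ) ≤ G y := by exact_mod_cast G_mono hy1
  have hg2 : (G y : ℝ) ≤ G (x (j + 1)) := by exact_mod_cast G_mono hy2
  refine ⟨?_, ?_, ?_, ?_⟩
  · exact pow_le_pow_left₀ (by linarith) hl1 2
  · exact pow_le_pow_left₀ (by linarith) hl2 2
  · linarith
  · linarith

theorem sq_ratio {x : ℕ → ℝ}
    (hq : Tendsto (fun j => Real.log (x (j + 1)) / Real.log (x j)) atTop (𝓝 1)) :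
    Tendsto (fun j => Real.log (x (j + 1)) ^ 2 / Real.log (x j) ^ 2) atTop (𝓝 1) := by
  have := hq.pow 2
  simpa [div_pow] using this

theorem F_seq (x : ℕ → ℝ) (hx : Monotone x) (hx' : Tendsto x atTop atTop)
    (hq : Tendsto (fun j => Real.log (x (j + 1)) / Real.log (x j)) atTop (𝓝 1)) :
    {y | MapClusterPt y atTop (fun j => F (x j))} = Icc (liminf F atTop) (limsup F atTop) ∧
    ∀ L : EReal, Tendsto (fun j => F (x j)) atTop (𝓝 L) → Tendsto F atTop (𝓝 L) :=
  interval (F := fun t => (G t : ℝ)) (S := fun t => Real.log t ^ 2)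
    (δ := fun _ => 0) tendsto_const_nhds (cond hx') hx hx' (sq_ratio hq)

/-- the sequence `exp j` -/
noncomputable def xe (j : ℕ) : ℝ := Real.exp (j : ℝ)

theorem xe_mono : Monotone xe := fun _ _ hij => Real.exp_le_exp.2 (by exact_mod_cast hij)

theorem xe_top : Tendsto xe atTop atTop :=
  Real.tendsto_exp_atTop.comp tendsto_natCast_atTop_atTop

theorem log_xe (j : ℕ) : Real.log (xe j) = j := Real.log_exp _

theorem xe_ratio : Tendsto (fun j => Real.log (xe (j + 1)) / Real.log (xe j)) atTop (𝓝 1) := by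
  simp only [log_xe]
  have h : Tendsto (fun j : ℕ => 1 + 1 / (j : ℝ)) atTop (𝓝 (1 + 0)) :=
    tendsto_const_nhds.add tendsto_one_div_atTop_nhds_zero_nat
  rw [add_zero] at h
  refine h.congr' ?_
  filter_upwards [eventually_gt_atTop 0] with j hj
  have : (j : ℝ) ≠ 0 := by positivity
  push_cast
  field_simp

theorem F_cont : {y | MapClusterPt y atTop F} = Icc (liminf F atTop) (limsup F atTop) :=
  interval_cont (F := fun t => (G t : ℝ)) (S := fun t => Real.log t ^ 2)
    (δ := fun _ => 0) tendsto_const_nhds (cond xe_top) xe_mono xe_top (sq_ratio xe_ratio)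

/-- Cramér's order of magnitude may be tested along sparse sequences -/
theorem order_seq (x : ℕ → ℝ) (hx' : Tendsto x atTop atTop) (hx : Monotone x)
    (hK : ∃ K : ℝ, ∀ᶠ j in atTop, Real.log (x (j + 1)) ≤ K * Real.log (x j)) :
    (∃ c C : ℝ, 0 < c ∧ ∀ᶠ j in atTop, c * Real.log (x j) ^ 2 ≤ (G (x j) : ℝ) ∧
      (G (x j) : ℝ) ≤ C * Real.log (x j) ^ 2) ↔
    (∃ c C : ℝ, 0 < c ∧ ∀ᶠ X : ℝ in atTop, c * Real.log X ^ 2 ≤ (G X : ℝ) ∧
      (G X : ℝ) ≤ C * Real.log X ^ 2) := by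
  constructor
  · rintro ⟨c, C, hc, h⟩
    obtain ⟨K, hK⟩ := hK
    obtain ⟨j₀, hj₀⟩ := eventually_atTop.1
      (h.and (hK.and (hx'.eventually_ge_atTop (Real.exp 1))))
    have hK0 : 0 < K := by
      obtain ⟨_, h1, h2⟩ := hj₀ j₀ le_rfl
      have h3 : 0 < x j₀ := (Real.exp_pos 1).trans_le h2
      have h4 : 1 ≤ Real.log (x j₀) := (Real.le_log_iff_exp_le h3).2 h2
      have h5 : Real.log (x j₀) ≤ Real.log (x (j₀ + 1)) :=
        Real.log_le_log h3 (hx (Nat.le_succ j₀))
      by_contra hcon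
      have := mul_nonpos_of_nonpos_of_nonneg (not_lt.1 hcon) (by linarith : 0 ≤ Real.log (x j₀))
      linarith
    refine ⟨c / K ^ 2, max C 0 * K ^ 2, by positivity, ?_⟩
    filter_upwards [eventually_ge_atTop (x j₀)] with X hX
    -- the index
    obtain ⟨j, hj, hX1, hX2⟩ : ∃ j, j₀ ≤ j ∧ x j ≤ X ∧ X < x (j + 1) := by
      classical
      have hex : ∃ m, X < x (j₀ + m) := by
        obtain ⟨m, hm⟩ := ((hx'.comp (tendsto_add_atTop_nat j₀)).eventually_gt_atTop X).exists
        exact ⟨m, by simpa [add_comm] using hm⟩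
      have hm := Nat.find_spec hex
      have hpos : Nat.find hex ≠ 0 := by
        intro h0
        rw [h0, add_zero] at hm
        linarith
      obtain ⟨m, hm'⟩ := Nat.exists_eq_succ_of_ne_zero hpos
      refine ⟨j₀ + m, Nat.le_add_right _ _, ?_, ?_⟩
      · have := Nat.find_min hex (m := m) (by omega)
        exact not_lt.1 this
      · rw [hm'] at hm
        exact hm
    obtain ⟨⟨a1, a2⟩, a3, a4⟩ := hj₀ j hj
    obtain ⟨⟨b1, b2⟩, b3, b4⟩ := hj₀ (j + 1) (by omega)
    have h0 : 0 < x j := (Real.exp_pos 1).trans_le a4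
    have h1 : 1 ≤ Real.log (x j) := (Real.le_log_iff_exp_le h0).2 a4
    have hl1 : Real.log (x j) ≤ Real.log X := Real.log_le_log h0 hX1
    have hl2 : Real.log X ≤ Real.log (x (j + 1)) := Real.log_le_log (h0.trans_le hX1) hX2.le
    have hg1 : (G (x j) : ℝ) ≤ G X := by exact_mod_cast G_mono hX1
    have hg2 : (G X : ℝ) ≤ G (x (j + 1)) := by exact_mod_cast G_mono hX2.le
    have hs1 : Real.log X ^ 2 ≤ K ^ 2 * Real.log (x j) ^ 2 := by
      rw [← mul_pow]
      exact pow_le_pow_left₀ (by linarith) (hl2.trans a3) 2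
    have hs2 : Real.log (x (j + 1)) ^ 2 ≤ K ^ 2 * Real.log X ^ 2 := by
      rw [← mul_pow]
      exact pow_le_pow_left₀ (by linarith) (a3.trans (mul_le_mul_of_nonneg_left hl1 hK0.le)) 2
    constructor
    · calc c / K ^ 2 * Real.log X ^ 2 ≤ c / K ^ 2 * (K ^ 2 * Real.log (x j) ^ 2) :=
            mul_le_mul_of_nonneg_left hs1 (by positivity)
        _ = c * Real.log (x j) ^ 2 := by field_simp
        _ ≤ _ := a1.trans hg1
    · calc (G X : ℝ) ≤ C * Real.log (x (j + 1)) ^ 2 := hg2.trans b2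
        _ ≤ max C 0 * Real.log (x (j + 1)) ^ 2 :=
            mul_le_mul_of_nonneg_right (le_max_left _ _) (by positivity)
        _ ≤ max C 0 * (K ^ 2 * Real.log X ^ 2) :=
            mul_le_mul_of_nonneg_left hs2 (le_max_right _ _)
        _ = _ := by ring
  · rintro ⟨c, C, hc, h⟩
    exact ⟨c, C, hc, hx'.eventually h⟩

/-- the quotient of one gap -/
noncomputable def V (n : ℕ) : EReal :=
  ((((Nat.nth Nat.Prime (n + 1) : ℝ) - Nat.nth Nat.Prime n) /
    Real.log (Nat.nth Nat.Prime (n + 1)) ^ 2 : ℝ) : EReal)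

theorem F_limsup : limsup F atTop = limsup V atTop := by
  have hp : Tendsto (fun n : ℕ => (Nat.nth Nat.Prime (n + 1) : ℝ)) atTop atTop :=
    tendsto_natCast_atTop_atTop.comp
      ((Nat.nth_strictMono Nat.infinite_setOfPred_prime).tendsto_atTop.comp (tendsto_add_atTop_nat 1))
  have hlt : ∀ n, Nat.nth Nat.Prime n < Nat.nth Nat.Prime (n + 1) := fun n =>
    Nat.nth_strictMono Nat.infinite_setOfPred_prime (Nat.lt_succ_self n)
  have h2 : ∀ n, 2 < Nat.nth Nat.Prime (n + 1) := fun n => by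
    have h3 := hlt n
    have h4 : (Nat.nth Nat.Prime n).Prime := Nat.nth_mem_of_infinite Nat.infinite_setOfPred_prime n
    have := h4.two_le
    omega
  have hlog : ∀ n, 0 < Real.log (Nat.nth Nat.Prime (n + 1)) := fun n =>
    Real.log_pos (by have := h2 n; exact_mod_cast (by omega : 1 < Nat.nth Nat.Prime (n + 1)))
  apply le_antisymm
  · by_contra hc
    rw [not_le] at hc
    have hV0 : (0 : EReal) ≤ limsup V atTop := by
      refine le_trans ?_ (liminf_le_limsup (by isBoundedDefault) (by isBoundedDefault))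
      apply le_liminf_of_le (by isBoundedDefault)
      filter_upwards with n
      unfold V
      have h5 : (Nat.nth Nat.Prime n : ℝ) < Nat.nth Nat.Prime (n + 1) := by exact_mod_cast hlt n
      have h6 : (0 : ℝ) ≤ ((Nat.nth Nat.Prime (n + 1) : ℝ) - Nat.nth Nat.Prime n) /
        Real.log (Nat.nth Nat.Prime (n + 1)) ^ 2 := div_nonneg (by linarith) (by positivity)
      exact_mod_cast h6
    obtain ⟨r, hr1, hr2⟩ := exists_between hc
    have hr0 : 0 < r := lt_of_le_of_lt hV0 hr1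
    have hrtop : r ≠ ⊤ := ne_top_of_lt hr2
    have hrbot : r ≠ ⊥ := ne_bot_of_gt hr0
    lift r to ℝ using ⟨hrtop, hrbot⟩
    have hr0' : 0 < r := by exact_mod_cast hr0
    obtain ⟨N, hN⟩ := eventually_atTop.1 (eventually_lt_of_limsup_lt hr1)
    obtain ⟨M, hM⟩ : ∃ M : ℕ, ∀ n < N,
        Nat.nth Nat.Prime (n + 1) - Nat.nth Nat.Prime n ≤ M :=
      ⟨∑ n ∈ Finset.range N, (Nat.nth Nat.Prime (n + 1) - Nat.nth Nat.Prime n),
        fun n hn => Finset.single_le_sum (f := fun n => Nat.nth Nat.Prime (n + 1) -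
          Nat.nth Nat.Prime n) (fun _ _ => Nat.zero_le _) (Finset.mem_range.2 hn)⟩
    have hbig : ∀ᶠ X : ℝ in atTop, (M : ℝ) < r * Real.log X ^ 2 := by
      have h7 : Tendsto (fun X : ℝ => r * Real.log X ^ 2) atTop atTop :=
        ((tendsto_pow_atTop two_ne_zero).comp Real.tendsto_log_atTop).const_mul_atTop hr0'
      exact h7.eventually_gt_atTop _
    obtain ⟨X, hX1, hX2, hX3⟩ := ((frequently_lt_of_lt_limsup (by isBoundedDefault) hr2).and_eventually
      (hbig.and (eventually_ge_atTop 3))).exists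
    have hlX : 0 < Real.log X := Real.log_pos (by linarith)
    obtain ⟨⟨n, hn1, hn2⟩, -⟩ := isGreatest hX3
    unfold F at hX1
    rw [EReal.coe_lt_coe_iff, lt_div_iff₀ (by positivity)] at hX1
    by_cases hnN : N ≤ n
    · have hVn := hN n hnN
      unfold V at hVn
      have hl := hlog n
      rw [EReal.coe_lt_coe_iff, div_lt_iff₀ (by positivity)] at hVn
      have hcast : (G X : ℝ) = (Nat.nth Nat.Prime (n + 1) : ℝ) - Nat.nth Nat.Prime n := by
        rw [hn2, Nat.cast_sub (hlt n).le]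
      have h8 : Real.log (Nat.nth Nat.Prime (n + 1)) ≤ Real.log X :=
        Real.log_le_log (by have := h2 n; exact_mod_cast (by omega : 0 < Nat.nth Nat.Prime (n + 1))) hn1
      have h9 : Real.log (Nat.nth Nat.Prime (n + 1)) ^ 2 ≤ Real.log X ^ 2 :=
        pow_le_pow_left₀ hl.le h8 2
      have := mul_le_mul_of_nonneg_left h9 hr0'.le
      linarith
    · have h8 := hM n (not_le.1 hnN)
      rw [← hn2] at h8
      have h9 : (G X : ℝ) ≤ M := by exact_mod_cast h8
      linarith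
  · have h1 : limsup V atTop ≤ limsup (fun n : ℕ => F (Nat.nth Nat.Prime (n + 1))) atTop := by
      refine limsup_le_limsup (?_ : ∀ᶠ n in atTop, _) (by isBoundedDefault) (by isBoundedDefault)
      filter_upwards with n
      unfold V F
      rw [EReal.coe_le_coe_iff]
      apply div_le_div_of_nonneg_right _ (by positivity)
      have h2 := le_G (X := (Nat.nth Nat.Prime (n + 1) : ℝ)) (n := n) le_rfl
      have h3 : ((Nat.nth Nat.Prime (n + 1) - Nat.nth Nat.Prime n : ℕ) : ℝ) ≤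
          (G (Nat.nth Nat.Prime (n + 1) : ℝ) : ℝ) := by exact_mod_cast h2
      rw [Nat.cast_sub (hlt n).le] at h3
      exact h3
    refine h1.trans ?_
    exact limsup_le_limsup_of_le (f := map (fun n : ℕ => (Nat.nth Nat.Prime (n + 1) : ℝ)) atTop)
      (g := atTop) (u := F) hp

end Pool.Agent.H108R4.PG.Cr
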