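import Mathlib
import Pool.Agent.H108R4.PG.Ratio
import Pool.Agent.H256R2.SC.Fin1

set_option autoImplicit false

open Filter Topology Set

namespace Pool.Agent.H108R4.PG

/-- the set of the gaps that follow a prime `≤ x` -/
def gaps (x : ℝ) : Set ℕ :=
  {g : ℕ | ∃ n : ℕ, (Nat.nth Nat.Prime n : ℝ) ≤ x ∧
    g = Nat.nth Nat.Prime (n + 1) - Nat.nth Nat.Prime n}

theorem gaps_finite (x : ℝ) : (gaps x).Finite := by
  have : gaps x ⊆ (fun n : ℕ => Nat.nth Nat.Prime (n + 1) - Nat.nth Nat.Prime n) ''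
      {n : ℕ | n ≤ ⌊x⌋₊} := by
    rintro g ⟨n, hn, rfl⟩
    refine ⟨n, ?_, rfl⟩
    have h1 : n ≤ Nat.nth Nat.Prime n :=
      (Nat.nth_strictMono Nat.infinite_setOfPred_prime).le_apply
    exact Nat.le_floor (le_trans (by exact_mod_cast h1) hn)
  exact ((Set.finite_le_nat _).image _).subset this

/-- the maximal prime gap function -/
noncomputable def G (x : ℝ) : ℕ := sSup (gaps x)

theorem le_G {x : ℝ} {n : ℕ} (h : (Nat.nth Nat.Prime n : ℝ) ≤ x) :
    Nat.nth Nat.Prime (n + 1) - Nat.nth Nat.Prime n ≤ G x :=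
  le_csSup (gaps_finite x).bddAbove ⟨n, h, rfl⟩

theorem G_mono : Monotone G := by
  intro x y hxy
  rcases (gaps x).eq_empty_or_nonempty with h | h
  · have : G x = 0 := by unfold G; rw [h]; exact csSup_empty
    rw [this]
    exact Nat.zero_le _
  · apply csSup_le_csSup (gaps_finite y).bddAbove h
    rintro g ⟨n, hn, rfl⟩
    exact ⟨n, hn.trans hxy, rfl⟩

/-- the lower bound for `G` -/
theorem G_lower : ∃ c : ℝ, 0 < c ∧ ∃ X₀ : ℝ, ∀ X : ℝ, X₀ ≤ X →
    c * (Real.log X * (Real.log (Real.log X)) ^ 2 *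
      Real.log (Real.log (Real.log (Real.log X))) / (Real.log (Real.log (Real.log X))) ^ 2) ≤
      (G X : ℝ) := by
  obtain ⟨c, hc, X₀, h⟩ := Pool.Agent.H256R2.SC.large_gaps
  refine ⟨c, hc, X₀, fun X hX => ?_⟩
  obtain ⟨m, hm1, hm2⟩ := h X hX
  have hlt : Nat.nth Nat.Prime m < Nat.nth Nat.Prime (m + 1) :=
    Nat.nth_strictMono Nat.infinite_setOfPred_prime (Nat.lt_succ_self m)
  have h1 : (Nat.nth Nat.Prime m : ℝ) ≤ X :=
    le_trans (by exact_mod_cast hlt.le) hm1
  have h2 := le_G h1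
  have h3 : ((Nat.nth Nat.Prime (m + 1) - Nat.nth Nat.Prime m : ℕ) : ℝ) ≤ (G X : ℝ) := by
    exact_mod_cast h2
  rw [Nat.cast_sub hlt.le] at h3
  exact hm2.trans h3

/-- the logarithmic form: `log (G x / log x) ≥ (2 - ε) log log log x` -/
theorem log_lower (ε : ℝ) (hε : 0 < ε) : ∀ᶠ x : ℝ in atTop, 0 < (G x : ℝ) ∧ 1 ≤ Real.log x ∧
    1 ≤ Real.log (Real.log (Real.log x)) ∧
    (2 - ε) * Real.log (Real.log (Real.log x)) ≤ Real.log ((G x : ℝ) / Real.log x) := by
  obtain ⟨c, hc, X₀, h⟩ := G_lower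
  have L3 : Tendsto (fun x : ℝ => Real.log (Real.log (Real.log x))) atTop atTop :=
    Real.tendsto_log_atTop.comp (Real.tendsto_log_atTop.comp Real.tendsto_log_atTop)
  have L2 : Tendsto (fun x : ℝ => Real.log (Real.log x)) atTop atTop :=
    Real.tendsto_log_atTop.comp Real.tendsto_log_atTop
  have hsm : ∀ᶠ t : ℝ in atTop, 2 * Real.log t - Real.log c ≤ ε * t := by
    have h1 : Tendsto (fun t : ℝ => Real.log t / t) atTop (𝓝 0) := by
      have := Real.isLittleO_log_id_atTop
      exact this.tendsto_div_nhds_zero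
    have h2 : Tendsto (fun t : ℝ => Real.log c / t) atTop (𝓝 0) :=
      tendsto_const_nhds.div_atTop tendsto_id
    have h3 : Tendsto (fun t : ℝ => 2 * (Real.log t / t) - Real.log c / t) atTop (𝓝 (2 * 0 - 0)) :=
      (h1.const_mul 2).sub h2
    filter_upwards [h3.eventually_lt_const (show (2 * 0 - 0 : ℝ) < ε by linarith),
      eventually_gt_atTop 0] with t ht ht0
    have : 2 * Real.log t - Real.log c = (2 * (Real.log t / t) - Real.log c / t) * t := by
      field_simp
    rw [this]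
    exact mul_le_mul_of_nonneg_right ht.le ht0.le
  filter_upwards [eventually_ge_atTop X₀, L3.eventually hsm, L3.eventually_ge_atTop (Real.exp 1),
    L2.eventually_ge_atTop 1, Real.tendsto_log_atTop.eventually_ge_atTop 1] with x hx hs h3 h2 h1
  have hG := h x hx
  set t := Real.log (Real.log (Real.log x)) with ht
  have ht1 : 1 ≤ t := le_trans (by have := Real.add_one_le_exp (1:ℝ); linarith) h3
  have ht0 : 0 < t := by linarith
  have hl4 : 1 ≤ Real.log t := by
    rw [Real.le_log_iff_exp_le ht0]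
    exact h3
  have hlx : 0 < Real.log x := by linarith
  have hllx : 0 < Real.log (Real.log x) := by linarith
  have hpos : 0 < c * (Real.log x * (Real.log (Real.log x)) ^ 2 * Real.log t / t ^ 2) := by
    positivity
  have hGpos : 0 < (G x : ℝ) := lt_of_lt_of_le hpos hG
  refine ⟨hGpos, h1, ht1, ?_⟩
  have e1 : c * (Real.log (Real.log x) ^ 2 / t ^ 2) ≤ (G x : ℝ) / Real.log x := by
    rw [le_div_iff₀ hlx]
    refine le_trans ?_ hG
    have e2 : c * (Real.log (Real.log x) ^ 2 / t ^ 2) * Real.log x =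
        c * (Real.log x * (Real.log (Real.log x)) ^ 2 * 1 / t ^ 2) := by ring
    rw [e2]
    apply mul_le_mul_of_nonneg_left _ hc.le
    apply div_le_div_of_nonneg_right _ (by positivity)
    apply mul_le_mul_of_nonneg_left hl4 (by positivity)
  have e3 : Real.log (c * (Real.log (Real.log x) ^ 2 / t ^ 2)) ≤
      Real.log ((G x : ℝ) / Real.log x) := Real.log_le_log (by positivity) e1
  have e4 : Real.log (c * (Real.log (Real.log x) ^ 2 / t ^ 2)) =
      Real.log c + (2 * t - 2 * Real.log t) := by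
    rw [Real.log_mul hc.ne' (by positivity), Real.log_div (by positivity) (by positivity),
      Real.log_pow, Real.log_pow]
    push_cast
    rw [ht]
  rw [e4] at e3
  nlinarith [hs]

end Pool.Agent.H108R4.PG
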