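import Mathlib
import Pool.Agent.H108R4.PG.Gap

set_option autoImplicit false

open Filter Topology Set

namespace Pool.Agent.H108R4.PG

/-- the exponent of `G` -/
noncomputable def E1 (x : ℝ) : EReal := ((Real.log (G x) / Real.log (Real.log x) : ℝ) : EReal)

/-- the second exponent of `G` -/
noncomputable def E2 (x : ℝ) : EReal :=
  ((Real.log ((G x : ℝ) / Real.log x) / Real.log (Real.log (Real.log x)) : ℝ) : EReal)

theorem basic_ev : ∀ᶠ x : ℝ in atTop, 0 < x ∧ 1 ≤ Real.log x ∧ 1 ≤ Real.log (Real.log x) ∧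
    1 ≤ Real.log (Real.log (Real.log x)) ∧ 0 < (G x : ℝ) := by
  filter_upwards [log_lower 1 one_pos, eventually_gt_atTop 0,
    (Real.tendsto_log_atTop.comp Real.tendsto_log_atTop).eventually_ge_atTop 1] with x h1 h2 h3
  exact ⟨h2, h1.2.1, h3, h1.2.2.1, h1.1⟩

theorem cond1 {x : ℕ → ℝ} (hx' : Tendsto x atTop atTop) :
    ∀ᶠ j in atTop, 0 < Real.log (Real.log (x j)) ∧ ∀ y, x j ≤ y → y ≤ x (j + 1) →
      Real.log (Real.log (x j)) ≤ Real.log (Real.log y) ∧
      Real.log (Real.log y) ≤ Real.log (Real.log (x (j + 1))) ∧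
      Real.log (G (x j)) - 0 * Real.log (Real.log (x j)) ≤ Real.log (G y) ∧
      Real.log (G y) - 0 * Real.log (Real.log (x j)) ≤ Real.log (G (x (j + 1))) := by
  filter_upwards [hx'.eventually basic_ev] with j hj
  obtain ⟨h1, h2, h3, h4, h5⟩ := hj
  refine ⟨by linarith, fun y hy1 hy2 => ?_⟩
  have hy0 : 0 < y := lt_of_lt_of_le h1 hy1
  have hl1 : Real.log (x j) ≤ Real.log y := Real.log_le_log h1 hy1
  have hl2 : Real.log y ≤ Real.log (x (j + 1)) := Real.log_le_log hy0 hy2
  have hg1 : (G (x j) : ℝ) ≤ G y := by exact_mod_cast G_mono hy1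
  have hg2 : (G y : ℝ) ≤ G (x (j + 1)) := by exact_mod_cast G_mono hy2
  refine ⟨Real.log_le_log (by linarith) hl1, Real.log_le_log (by linarith) hl2, ?_, ?_⟩
  · rw [zero_mul, sub_zero]
    exact Real.log_le_log h5 hg1
  · rw [zero_mul, sub_zero]
    exact Real.log_le_log (by linarith) hg2

theorem cond2 {x : ℕ → ℝ} (hx' : Tendsto x atTop atTop) :
    ∀ᶠ j in atTop, 0 < Real.log (Real.log (Real.log (x j))) ∧ ∀ y, x j ≤ y → y ≤ x (j + 1) →
      Real.log (Real.log (Real.log (x j))) ≤ Real.log (Real.log (Real.log y)) ∧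
      Real.log (Real.log (Real.log y)) ≤ Real.log (Real.log (Real.log (x (j + 1)))) ∧
      Real.log ((G (x j) : ℝ) / Real.log (x j)) -
        (Real.log (Real.log (x (j + 1))) - Real.log (Real.log (x j))) /
          Real.log (Real.log (Real.log (x j))) * Real.log (Real.log (Real.log (x j))) ≤
        Real.log ((G y : ℝ) / Real.log y) ∧
      Real.log ((G y : ℝ) / Real.log y) -
        (Real.log (Real.log (x (j + 1))) - Real.log (Real.log (x j))) /
          Real.log (Real.log (Real.log (x j))) * Real.log (Real.log (Real.log (x j))) ≤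
        Real.log ((G (x (j + 1)) : ℝ) / Real.log (x (j + 1))) := by
  filter_upwards [hx'.eventually basic_ev] with j hj
  obtain ⟨h1, h2, h3, h4, h5⟩ := hj
  refine ⟨by linarith, fun y hy1 hy2 => ?_⟩
  have hy0 : 0 < y := lt_of_lt_of_le h1 hy1
  have hl1 : Real.log (x j) ≤ Real.log y := Real.log_le_log h1 hy1
  have hl2 : Real.log y ≤ Real.log (x (j + 1)) := Real.log_le_log hy0 hy2
  have hm1 : Real.log (Real.log (x j)) ≤ Real.log (Real.log y) := Real.log_le_log (by linarith) hl1
  have hm2 : Real.log (Real.log y) ≤ Real.log (Real.log (x (j + 1))) :=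
    Real.log_le_log (by linarith) hl2
  have hg1 : (G (x j) : ℝ) ≤ G y := by exact_mod_cast G_mono hy1
  have hg2 : (G y : ℝ) ≤ G (x (j + 1)) := by exact_mod_cast G_mono hy2
  have hk1 : Real.log (G (x j)) ≤ Real.log (G y) := Real.log_le_log h5 hg1
  have hk2 : Real.log (G y) ≤ Real.log (G (x (j + 1))) := Real.log_le_log (by linarith) hg2
  have hdiv : (Real.log (Real.log (x (j + 1))) - Real.log (Real.log (x j))) /
          Real.log (Real.log (Real.log (x j))) * Real.log (Real.log (Real.log (x j))) =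
      Real.log (Real.log (x (j + 1))) - Real.log (Real.log (x j)) := by
    have : Real.log (Real.log (Real.log (x j))) ≠ 0 := by linarith
    field_simp
  rw [hdiv, Real.log_div h5.ne' (by linarith), Real.log_div (by linarith) (by linarith),
    Real.log_div (by linarith) (by linarith)]
  refine ⟨Real.log_le_log (by linarith) hm1, Real.log_le_log (by linarith) hm2, ?_, ?_⟩
  · linarith
  · linarith

theorem ratio2 {x : ℕ → ℝ} (hx : Monotone x) (hx' : Tendsto x atTop atTop)
    (h : Tendsto (fun j => (Real.log (Real.log (x (j + 1))) - Real.log (Real.log (x j))) /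
      Real.log (Real.log (Real.log (x j)))) atTop (𝓝 0)) :
    Tendsto (fun j => Real.log (Real.log (Real.log (x (j + 1)))) /
      Real.log (Real.log (Real.log (x j)))) atTop (𝓝 1) := by
  have hup : Tendsto (fun j => 1 + (Real.log (Real.log (x (j + 1))) - Real.log (Real.log (x j))) /
      Real.log (Real.log (Real.log (x j)))) atTop (𝓝 1) := by
    simpa using h.const_add 1
  refine tendsto_of_tendsto_of_tendsto_of_le_of_le' tendsto_const_nhds hup ?_ ?_
  · filter_upwards [hx'.eventually basic_ev] with j hj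
    obtain ⟨h1, h2, h3, h4, h5⟩ := hj
    have hl2 : Real.log (x j) ≤ Real.log (x (j + 1)) := Real.log_le_log h1 (hx (Nat.le_succ j))
    have hm2 : Real.log (Real.log (x j)) ≤ Real.log (Real.log (x (j + 1))) :=
      Real.log_le_log (by linarith) hl2
    rw [le_div_iff₀ (by linarith), one_mul]
    exact Real.log_le_log (by linarith) hm2
  · filter_upwards [hx'.eventually basic_ev] with j hj
    obtain ⟨h1, h2, h3, h4, h5⟩ := hj
    have hl2 : Real.log (x j) ≤ Real.log (x (j + 1)) := Real.log_le_log h1 (hx (Nat.le_succ j))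
    have hm2 : Real.log (Real.log (x j)) ≤ Real.log (Real.log (x (j + 1))) :=
      Real.log_le_log (by linarith) hl2
    set a := Real.log (Real.log (x j)) with ha
    set b := Real.log (Real.log (x (j + 1))) with hb
    have ha0 : 0 < a := by linarith
    have hb0 : 0 < b := by linarith
    have e1 : Real.log b - Real.log a ≤ b - a := by
      rw [← Real.log_div hb0.ne' ha0.ne']
      have h6 := Real.log_le_sub_one_of_pos (div_pos hb0 ha0)
      have h7 : b / a - 1 ≤ b - a := by
        rw [div_sub_one ha0.ne', div_le_iff₀ ha0]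
        nlinarith
      linarith
    rw [div_le_iff₀ (by linarith)]
    have h8 : (1 + (b - a) / Real.log a) * Real.log a = Real.log a + (b - a) := by
      have : Real.log a ≠ 0 := by linarith
      field_simp
    rw [h8]
    linarith

/-- the sequence `exp (exp j)` -/
noncomputable def xs (j : ℕ) : ℝ := Real.exp (Real.exp j)

theorem xs_mono : Monotone xs := by
  intro i j hij
  exact Real.exp_le_exp.2 (Real.exp_le_exp.2 (by exact_mod_cast hij))

theorem xs_top : Tendsto xs atTop atTop :=
  Real.tendsto_exp_atTop.comp (Real.tendsto_exp_atTop.comp tendsto_natCast_atTop_atTop)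

theorem log_log_xs (j : ℕ) : Real.log (Real.log (xs j)) = j := by
  unfold xs
  rw [Real.log_exp, Real.log_exp]

theorem xs_ratio : Tendsto (fun j => Real.log (Real.log (xs (j + 1))) / Real.log (Real.log (xs j)))
    atTop (𝓝 1) := by
  simp only [log_log_xs]
  have h : Tendsto (fun j : ℕ => 1 + 1 / (j : ℝ)) atTop (𝓝 (1 + 0)) :=
    tendsto_const_nhds.add tendsto_one_div_atTop_nhds_zero_nat
  rw [add_zero] at h
  refine h.congr' ?_
  filter_upwards [eventually_gt_atTop 0] with j hj
  have : (j : ℝ) ≠ 0 := by positivity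
  push_cast
  field_simp

theorem xs_diff : Tendsto (fun j => (Real.log (Real.log (xs (j + 1))) - Real.log (Real.log (xs j))) /
    Real.log (Real.log (Real.log (xs j)))) atTop (𝓝 0) := by
  simp only [log_log_xs]
  have h : Tendsto (fun j : ℕ => (1 : ℝ) / Real.log j) atTop (𝓝 0) :=
    tendsto_const_nhds.div_atTop (Real.tendsto_log_atTop.comp tendsto_natCast_atTop_atTop)
  refine h.congr ?_
  intro j
  push_cast
  ring

theorem E1_cont : {y | MapClusterPt y atTop E1} = Icc (liminf E1 atTop) (limsup E1 atTop) :=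
  interval_cont (F := fun t => Real.log (G t)) (S := fun t => Real.log (Real.log t))
    (δ := fun _ => 0) tendsto_const_nhds (cond1 xs_top) xs_mono xs_top xs_ratio

theorem E1_seq (x : ℕ → ℝ) (hx : Monotone x) (hx' : Tendsto x atTop atTop)
    (hq : Tendsto (fun j => Real.log (Real.log (x (j + 1))) / Real.log (Real.log (x j)))
      atTop (𝓝 1)) :
    {y | MapClusterPt y atTop (fun j => E1 (x j))} = Icc (liminf E1 atTop) (limsup E1 atTop) ∧
    ∀ L : EReal, Tendsto (fun j => E1 (x j)) atTop (𝓝 L) → Tendsto E1 atTop (𝓝 L) :=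
  interval (F := fun t => Real.log (G t)) (S := fun t => Real.log (Real.log t))
    (δ := fun _ => 0) tendsto_const_nhds (cond1 hx') hx hx' hq

theorem E2_cont : {y | MapClusterPt y atTop E2} = Icc (liminf E2 atTop) (limsup E2 atTop) :=
  interval_cont (F := fun t => Real.log ((G t : ℝ) / Real.log t))
    (S := fun t => Real.log (Real.log (Real.log t)))
    xs_diff (cond2 xs_top) xs_mono xs_top (ratio2 xs_mono xs_top xs_diff)

theorem E2_seq (x : ℕ → ℝ) (hx : Monotone x) (hx' : Tendsto x atTop atTop)
    (hq : Tendsto (fun j => (Real.log (Real.log (x (j + 1))) - Real.log (Real.log (x j))) /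
      Real.log (Real.log (Real.log (x j)))) atTop (𝓝 0)) :
    {y | MapClusterPt y atTop (fun j => E2 (x j))} = Icc (liminf E2 atTop) (limsup E2 atTop) ∧
    ∀ L : EReal, Tendsto (fun j => E2 (x j)) atTop (𝓝 L) → Tendsto E2 atTop (𝓝 L) :=
  interval (F := fun t => Real.log ((G t : ℝ) / Real.log t))
    (S := fun t => Real.log (Real.log (Real.log t)))
    hq (cond2 hx') hx hx' (ratio2 hx hx' hq)

theorem E2_lower : 2 ≤ liminf E2 atTop := by
  have h : ∀ n : ℕ, 0 < n → (((2 - 1 / n : ℝ)) : EReal) ≤ liminf E2 atTop := by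
    intro n hn
    apply le_liminf_of_le (by isBoundedDefault)
    filter_upwards [log_lower (1 / n) (by positivity)] with x hx
    obtain ⟨h1, h2, h3, h4⟩ := hx
    unfold E2
    rw [EReal.coe_le_coe_iff, le_div_iff₀ (by linarith)]
    exact h4
  have ht : Tendsto (fun n : ℕ => (((2 - 1 / n : ℝ)) : EReal)) atTop (𝓝 ((2 - 0 : ℝ) : EReal)) := by
    rw [EReal.tendsto_coe]
    exact tendsto_const_nhds.sub tendsto_one_div_atTop_nhds_zero_nat
  have h2 : ((2 - 0 : ℝ) : EReal) ≤ liminf E2 atTop := by
    refine le_of_tendsto ht ?_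
    filter_upwards [eventually_gt_atTop 0] with n hn
    exact h n hn
  rw [sub_zero] at h2
  exact_mod_cast h2

theorem E1_lower : 1 ≤ liminf E1 atTop := by
  apply le_liminf_of_le (by isBoundedDefault)
  filter_upwards [log_lower 1 one_pos, basic_ev] with x hx hb
  obtain ⟨h1, h2, h3, h4⟩ := hx
  obtain ⟨_, _, hb3, _, _⟩ := hb
  unfold E1
  have e : ((1 : ℝ) : EReal) = 1 := EReal.coe_one
  rw [← e, EReal.coe_le_coe_iff, le_div_iff₀ (by linarith), one_mul]
  rw [Real.log_div h1.ne' (by linarith)] at h4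
  linarith

/-- the exponent of one gap -/
noncomputable def V (n : ℕ) : EReal :=
  ((Real.log ((Nat.nth Nat.Prime (n + 1) : ℝ) - Nat.nth Nat.Prime n) /
    Real.log (Real.log (Nat.nth Nat.Prime n)) : ℝ) : EReal)

theorem E1_limsup : limsup E1 atTop = limsup V atTop := by
  have hp : Tendsto (fun n : ℕ => (Nat.nth Nat.Prime n : ℝ)) atTop atTop :=
    tendsto_natCast_atTop_atTop.comp
      (Nat.nth_strictMono Nat.infinite_setOfPred_prime).tendsto_atTop
  have hlt : ∀ n, Nat.nth Nat.Prime n < Nat.nth Nat.Prime (n + 1) := fun n =>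
    Nat.nth_strictMono Nat.infinite_setOfPred_prime (Nat.lt_succ_self n)
  apply le_antisymm
  · by_contra hc
    rw [not_le] at hc
    have h0 : (0 : EReal) < limsup E1 atTop := by
      refine lt_of_lt_of_le ?_ (liminf_le_limsup (by isBoundedDefault) (by isBoundedDefault))
      exact lt_of_lt_of_le (by norm_num) E1_lower
    obtain ⟨r, hr1, hr2⟩ := exists_between (max_lt hc h0)
    have hr0 : 0 < r := lt_of_le_of_lt (le_max_right _ _) hr1
    have hrV : limsup V atTop < r := lt_of_le_of_lt (le_max_left _ _) hr1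
    lift r to ℝ using ⟨(lt_of_lt_of_le hr2 le_top).ne, (lt_trans (by simp) hr0).ne'⟩
    have hr0' : 0 < r := by exact_mod_cast hr0
    obtain ⟨N, hN⟩ := eventually_atTop.1 (eventually_lt_of_limsup_lt hrV)
    obtain ⟨N', hN'⟩ := eventually_atTop.1 (hp.eventually basic_ev)
    -- bound for the first gaps
    have hGtop : Tendsto (fun x : ℝ => (G x : ℝ)) atTop atTop := by
      have h1 : ∀ᶠ x : ℝ in atTop, Real.log x ≤ (G x : ℝ) := by
        filter_upwards [log_lower 1 one_pos] with x hx
        obtain ⟨h1, h2, h3, h4⟩ := hx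
        by_contra hcon
        rw [not_le] at hcon
        have : Real.log ((G x : ℝ) / Real.log x) < 0 :=
          Real.log_neg (by positivity) (by rw [div_lt_one (by linarith)]; exact hcon)
        linarith
      exact tendsto_atTop_mono' _ h1 Real.tendsto_log_atTop
    obtain ⟨M, hM⟩ : ∃ M : ℕ, ∀ n < max N N',
        Nat.nth Nat.Prime (n + 1) - Nat.nth Nat.Prime n ≤ M :=
      ⟨∑ n ∈ Finset.range (max N N'), (Nat.nth Nat.Prime (n + 1) - Nat.nth Nat.Prime n),
        fun n hn => Finset.single_le_sum (f := fun n => Nat.nth Nat.Prime (n + 1) -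
          Nat.nth Nat.Prime n) (fun _ _ => Nat.zero_le _) (Finset.mem_range.2 hn)⟩
    obtain ⟨x, hx1, hx2, hx3⟩ := ((frequently_lt_of_lt_limsup (by isBoundedDefault) hr2).and_eventually
      ((hGtop.eventually_gt_atTop (M : ℝ)).and basic_ev)).exists
    obtain ⟨b1, b2, b3, b4, b5⟩ := hx3
    -- the gap
    have hne : (gaps x).Nonempty := by
      by_contra he
      rw [Set.not_nonempty_iff_eq_empty] at he
      have : G x = 0 := by unfold G; rw [he]; exact csSup_empty
      rw [this] at b5
      simp at b5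
    have hmem : G x ∈ gaps x := Nat.sSup_mem hne (gaps_finite x).bddAbove
    obtain ⟨n, hn1, hn2⟩ := hmem
    have hnN : max N N' ≤ n := by
      by_contra hcon
      have h2 := hM n (not_le.1 hcon)
      rw [← hn2] at h2
      have h3 : (G x : ℝ) ≤ M := by exact_mod_cast h2
      linarith
    have hVn := hN n ((le_max_left _ _).trans hnN)
    obtain ⟨c1, c2, c3, c4, c5⟩ := hN' n ((le_max_right _ _).trans hnN)
    have hcast : (G x : ℝ) = (Nat.nth Nat.Prime (n + 1) : ℝ) - Nat.nth Nat.Prime n := by
      rw [hn2, Nat.cast_sub (hlt n).le]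
    unfold V at hVn
    unfold E1 at hx1
    rw [EReal.coe_lt_coe_iff, div_lt_iff₀ (by linarith), ← hcast] at hVn
    rw [EReal.coe_lt_coe_iff, lt_div_iff₀ (by linarith)] at hx1
    have hmono : Real.log (Real.log (Nat.nth Nat.Prime n)) ≤ Real.log (Real.log x) :=
      Real.log_le_log (by linarith) (Real.log_le_log c1 hn1)
    have := mul_le_mul_of_nonneg_left hmono hr0'.le
    linarith
  · have h1 : limsup V atTop ≤ limsup (fun n : ℕ => E1 (Nat.nth Nat.Prime n)) atTop := by
      refine limsup_le_limsup (?_ : ∀ᶠ n in atTop, _) (by isBoundedDefault) (by isBoundedDefault)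
      filter_upwards [hp.eventually basic_ev] with n hn
      obtain ⟨c1, c2, c3, c4, c5⟩ := hn
      unfold V E1
      rw [EReal.coe_le_coe_iff]
      apply div_le_div_of_nonneg_right _ (by linarith)
      have h2 := le_G (x := (Nat.nth Nat.Prime n : ℝ)) (n := n) le_rfl
      have h3 : ((Nat.nth Nat.Prime (n + 1) - Nat.nth Nat.Prime n : ℕ) : ℝ) ≤
          (G (Nat.nth Nat.Prime n : ℝ) : ℝ) := by exact_mod_cast h2
      rw [Nat.cast_sub (hlt n).le] at h3
      apply Real.log_le_log _ h3
      have : (Nat.nth Nat.Prime n : ℝ) < Nat.nth Nat.Prime (n + 1) := by exact_mod_cast hlt n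
      linarith
    refine h1.trans ?_
    exact limsup_le_limsup_of_le (f := map (fun n : ℕ => (Nat.nth Nat.Prime n : ℝ)) atTop)
      (g := atTop) (u := E1) hp

end Pool.Agent.H108R4.PG
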